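import Pool.Agent.H84.S2.TgD

/-!
# Row D_PTN of the board s2l_modules: nodes are smooth points of the surface
-/

set_option autoImplicit false

namespace Pool.Agent.H38.S2

open MvPolynomial SC
open Pool.Agent.H27.LV (ge deg poleOrder canDeg)
open Pool.Agent.H84.SM (cr dt dp)
open Pool.Agent.H92.SF (Q2)
open Pool.Agent.H3.SF (Itg Bb BB Hm eu grd hes Sfc Crd Cnn Crf Prm nv Vl VQ evc FE E)
open Pool.Agent.H84.SF
open Pool.Agent.H3.S2
open Pool.Agent.H84.S2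

theorem pf_PTN (hNF1 : T_NF1) : T_PTN := by
  intro k F σ _ _ _ _ _ _ _ X u dd J j0 hS GP s hs hC hN
  obtain ⟨-, L0, L1, L2, cX, cY, ε, x1, y1, dX, dY, hL2, hF⟩ :=
    hNF1 k F σ X u dd J j0 hS s hs hC hN.dim
  refine ⟨L0, L1, L2, ε, x1, y1, dX, dY, hF.l0, hF.l1, hL2, hF.v0, hF.eps, hF.eX, ?_, hF.frm⟩
  have h1 := hF.eG
  rw [pow_one] at h1
  exact h1

end Pool.Agent.H38.S2
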